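import Pool.Agent.Helper44.TOT.Defs

set_option autoImplicit false

namespace Pool.Agent.Helper42.TOT

open Pool.Agent.Helper44.TOT

theorem blk_le_blk (P Q : ℕ → Prop) (y : ℕ) (h : ∀ q : ℕ, q.Prime → q ≤ y → P q → Q q) :
    (blk P y : ℝ) ≤ blk Q y := by
  classical
  have : blk P y ≤ blk Q y := by
    unfold blk
    apply Finset.card_le_card
    intro q hq
    rw [Finset.mem_filter] at hq ⊢
    exact ⟨hq.1, hq.2.1, h q hq.2.1 (Finset.mem_Ioc.1 hq.1).2 hq.2.2⟩
  exact_mod_cast this

theorem blk_eq_zero (P : ℕ → Prop) (y : ℕ) (h : ∀ q : ℕ, q.Prime → ¬ P q) : blk P y = 0 := by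
  classical
  unfold blk
  rw [Finset.card_eq_zero, Finset.filter_eq_empty_iff]
  intro q _ hq
  exact h q hq.1 hq.2

theorem exp_le_one_sub' {u : ℝ} (h0 : 0 ≤ u) (h1 : u ≤ 1 / 2) : Real.exp (-(2 * u)) ≤ 1 - u := by
  have h2 : 2 * u + 1 ≤ Real.exp (2 * u) := Real.add_one_le_exp (2 * u)
  have h3 : (1 : ℝ) ≤ (1 - u) * Real.exp (2 * u) := by nlinarith only [h2, h0, h1]
  rw [Real.exp_neg, inv_eq_one_div, div_le_iff₀ (Real.exp_pos _)]
  exact h3

theorem phaseOne (hConv : Conv) : PhaseOne := by
  intro a C0 ρ ι C6 N0 ε hC hG B T hB hT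
  set K1 : ℝ := 2 * (a : ℝ) + 3 with hK1
  have hK1pos : 0 < K1 := by positivity
  have hρ := hC.hρ
  have hN0 := hG.hN0
  have hN0pos : 0 < N0 := by linarith
  have hεeq := hG.hε
  have hε1 := hG.hε1
  have hε2 := hG.hε2
  have hεpos : 0 < ε := by rw [hεeq]; positivity
  have hC0 := hC.hC0
  have hC0pos : 0 < C0 := by linarith
  have hι := hC.hι
  have hι' := hC.hι'
  have hρN : N0 * ε / 2 = ρ := by rw [hεeq]; field_simp
  -- monotonicity of NN
  have hNNmono : ∀ s s' : ℝ, 0 ≤ s → s ≤ s' → NN N0 ε s ≤ NN N0 ε s' := by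
    intro s s' hs hss
    unfold NN
    have h1 : 0 ≤ ε * s := by positivity
    have h2 : ε * s ≤ ε * s' := mul_le_mul_of_nonneg_left hss hεpos.le
    have h3 : (1 + ε * s) ^ 2 ≤ (1 + ε * s') ^ 2 := pow_le_pow_left₀ (by linarith) (by linarith) 2
    exact mul_le_mul_of_nonneg_left h3 hN0pos.le
  have hNN0 : NN N0 ε 0 = N0 := by unfold NN; ring
  have hNTge : N0 ≤ NN N0 ε T := le_of_eq_of_le hNN0.symm (hNNmono 0 T le_rfl hT)
  have hNT1 : 1 ≤ NN N0 ε T * B := by nlinarith only [hB, hN0, hNTge]
  have hlogNT : 0 ≤ Real.log (NN N0 ε T * B) := Real.log_nonneg hNT1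
  have hstuff : 0 ≤ ρ * (K1 * Real.log (NN N0 ε T * B)) := by positivity
  have monoExp : ∀ (r s : ℝ), 0 ≤ s → s ≤ r →
      C0 * Real.exp (-(r ^ a)) ≤ C0 * Real.exp (-(s ^ a)) := by
    intro r s hs hsr
    have h1 : s ^ a ≤ r ^ a := pow_le_pow_left₀ hs hsr a
    have h2 : Real.exp (-(r ^ a)) ≤ Real.exp (-(s ^ a)) := Real.exp_le_exp.mpr (by linarith)
    exact mul_le_mul_of_nonneg_left h2 (by linarith)
  refine ⟨C0 * Real.exp (-((NN N0 ε T * B + ρ * (K1 * Real.log (NN N0 ε T * B))) ^ a)),
    by positivity, ?_, 3, ?_⟩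
  · exact monoExp _ _ (by linarith) (by linarith)
  intro h x0 x hx0 hx0x hTx hPH hIH
  set t : ℝ := tt x0 x with ht
  set ε0 : ℝ := C0 * Real.exp (-((NN N0 ε T * B + ρ * (K1 * Real.log (NN N0 ε T * B))) ^ a))
    with hε0def
  -- logs
  have hx0r : (3 : ℝ) ≤ x0 := by exact_mod_cast hx0
  have hx0xr : (x0 : ℝ) ≤ x := by exact_mod_cast hx0x
  have hxr : (3 : ℝ) ≤ x := by linarith
  have hlx0 : 0 < Real.log x0 := Real.log_pos (by linarith)
  have hlx : 0 < Real.log x := Real.log_pos (by linarith)
  have hxpos : (0 : ℝ) < x := by linarith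
  have hx0pos : (0 : ℝ) < x0 := by linarith
  have ht0 : 0 ≤ t := by
    rw [ht]; unfold tt
    apply Real.log_nonneg
    rw [le_div_iff₀ hlx0, one_mul]
    exact Real.log_le_log hx0pos hx0xr
  have hP1 : 1 ≤ 1 + ε * t := by linarith only [hεpos, ht0, mul_nonneg hεpos.le ht0]
  have hPpos : 0 < 1 + ε * t := by linarith
  set N : ℝ := NN N0 ε t with hN
  have hNge : N0 ≤ N := le_of_eq_of_le hNN0.symm (hNNmono 0 t le_rfl ht0)
  have hNT : N ≤ NN N0 ε T := hNNmono t T ht0 hTx
  have hNpos : 0 < N := by linarith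
  have hN1 : 1 ≤ N := by linarith
  have hNB : N ≤ N * B := by nlinarith only [hB, hN0, hNge]
  have hNBpos : 0 < N * B := by positivity
  have hNBT : N * B ≤ NN N0 ε T * B := mul_le_mul_of_nonneg_right hNT (by linarith)
  have hlogN : 0 ≤ Real.log N := Real.log_nonneg hN1
  have hlogNB : Real.log (N * B) ≤ Real.log (NN N0 ε T * B) := Real.log_le_log hNBpos hNBT
  have hbb : 0 ≤ bb ε t := by
    unfold bb
    have : 1 / (1 + ε * t) ≤ 1 := by rw [div_le_one hPpos]; exact hP1
    linarith
  set uB : ℝ := (N * B) ^ (-K1) with huB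
  set u1 : ℝ := N ^ (-K1) with hu1
  have huBpos : 0 < uB := Real.rpow_pos_of_pos hNBpos _
  have hu1pos : 0 < u1 := Real.rpow_pos_of_pos hNpos _
  have huBu1 : uB ≤ u1 := Real.rpow_le_rpow_of_nonpos hNpos hNB (by linarith)
  have hu1small : u1 ≤ 1 / 40 := by
    refine le_trans ?_ hG.small
    exact Real.rpow_le_rpow_of_nonpos hN0pos hNge (by linarith)
  have hloguB : Real.log uB = -(K1 * Real.log (N * B)) := by
    rw [huB, Real.log_rpow hNBpos]; ring
  have hlogu1 : Real.log u1 = -(K1 * Real.log N) := by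
    rw [hu1, Real.log_rpow hNpos]; ring
  -- the window starts below x^{uB}
  have hwin : (x0 : ℝ) ^ ((N0 * B) ^ (-K1)) ≤ (x : ℝ) ^ uB := by
    have hN0B : 0 < N0 * B := by positivity
    have hNeq : N * B = (N0 * B) * (1 + ε * t) ^ 2 := by rw [hN]; unfold NN; ring
    have h1 : uB = (N0 * B) ^ (-K1) * ((1 + ε * t) ^ 2) ^ (-K1) := by
      rw [huB, hNeq, Real.mul_rpow hN0B.le (by positivity)]
    have h2 : Real.exp (-t) ≤ ((1 + ε * t) ^ 2) ^ (-K1) := by
      have h3 : 1 + ε * t ≤ Real.exp (ε * t) := by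
        have := Real.add_one_le_exp (ε * t); linarith only [this]
      have h4 : (1 + ε * t) ^ 2 ≤ Real.exp (2 * (ε * t)) := by
        have h5 : Real.exp (2 * (ε * t)) = Real.exp (ε * t) ^ 2 := by
          rw [← Real.exp_nat_mul]; norm_num
        rw [h5]
        exact pow_le_pow_left₀ hPpos.le h3 2
      have h6 : Real.exp (2 * (ε * t)) ^ (-K1) ≤ ((1 + ε * t) ^ 2) ^ (-K1) :=
        Real.rpow_le_rpow_of_nonpos (by positivity) h4 (by linarith)
      refine le_trans ?_ h6
      rw [← Real.exp_mul]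
      apply Real.exp_le_exp.mpr
      have h7 : 2 * K1 * ε * t ≤ 1 * t := mul_le_mul_of_nonneg_right hε2 ht0
      linarith only [h7]
    have h8 : Real.exp t = Real.log x / Real.log x0 := by
      rw [ht]; unfold tt
      rw [Real.exp_log (by positivity)]
    have h9 : Real.log x0 = Real.exp (-t) * Real.log x := by
      rw [Real.exp_neg, h8]; field_simp
    have h10 : (N0 * B) ^ (-K1) * Real.log x0 ≤ uB * Real.log x := by
      rw [h1, h9]
      have h11 : 0 < (N0 * B) ^ (-K1) := Real.rpow_pos_of_pos hN0B _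
      have h12 : Real.exp (-t) * Real.log x ≤ ((1 + ε * t) ^ 2) ^ (-K1) * Real.log x :=
        mul_le_mul_of_nonneg_right h2 hlx.le
      calc (N0 * B) ^ (-K1) * (Real.exp (-t) * Real.log x)
          ≤ (N0 * B) ^ (-K1) * (((1 + ε * t) ^ 2) ^ (-K1) * Real.log x) :=
            mul_le_mul_of_nonneg_left h12 h11.le
        _ = _ := by ring
    rw [Real.rpow_def_of_pos hx0pos, Real.rpow_def_of_pos hxpos]
    apply Real.exp_le_exp.mpr
    linarith only [h10]
  -- for y with x^{uB} ≤ y
  have key : ∀ y : ℕ, (x : ℝ) ^ uB ≤ y → y < x →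
      0 < Real.log y ∧ 0 ≤ Real.log (Real.log x / Real.log y) ∧
      Real.log (Real.log x / Real.log y) ≤ K1 * Real.log (N * B) ∧
      ((x : ℝ) ^ u1 ≤ y → Real.log (Real.log x / Real.log y) ≤ K1 * Real.log N) ∧
      tt x0 y = t - Real.log (Real.log x / Real.log y) := by
    intro y hy hyx
    have hy1 : (1 : ℝ) < (x : ℝ) ^ uB := Real.one_lt_rpow (by linarith) huBpos
    have hypos : (0 : ℝ) < y := by linarith
    have hly : 0 < Real.log y := Real.log_pos (by linarith)
    have hyx' : (y : ℝ) < x := by exact_mod_cast hyx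
    have hlyx : Real.log y < Real.log x := Real.log_lt_log hypos hyx'
    have gen : ∀ u : ℝ, 0 < u → (x : ℝ) ^ u ≤ y →
        Real.log (Real.log x / Real.log y) ≤ - Real.log u := by
      intro u hu hyu
      have h1 : u * Real.log x ≤ Real.log y := by
        rw [← Real.log_rpow hxpos]
        exact Real.log_le_log (by positivity) hyu
      have h3 : Real.log x / Real.log y ≤ 1 / u := by
        rw [div_le_div_iff₀ hly hu]; linarith
      have h4 := Real.log_le_log (by positivity) h3
      rw [Real.log_div one_ne_zero hu.ne', Real.log_one] at h4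
      linarith only [h4]
    have h2 := gen uB huBpos hy
    rw [hloguB] at h2
    have h5 : 0 ≤ Real.log (Real.log x / Real.log y) := by
      apply Real.log_nonneg
      rw [le_div_iff₀ hly]; linarith only [hlyx]
    refine ⟨hly, h5, by linarith, ?_, ?_⟩
    · intro hyu
      have h2' := gen u1 hu1pos hyu
      rw [hlogu1] at h2'
      linarith only [h2']
    · rw [ht]; unfold tt
      rw [Real.log_div hly.ne' hlx0.ne', Real.log_div hlx.ne' hlx0.ne',
        Real.log_div hlx.ne' hly.ne']
      ring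
  -- pointwise facts on b1
  have hb1le : ∀ q : ℕ, q.Prime → b1 h x0 N0 ε u1 x q ≤ N * B := by
    intro q hq
    unfold b1
    split_ifs
    · apply max_le hNBpos.le
      unfold Gx
      rw [← ht, ← hN]
      apply mul_le_mul_of_nonneg_left _ hNpos.le
      have := hPH.le q hq
      linarith
    · exact hNBpos.le
  have hb1Gx : ∀ (q : ℕ) (β : ℝ), 0 < β → β ≤ b1 h x0 N0 ε u1 x q →
      β ≤ N * (h q - bb ε t) ∧ ((x : ℝ) ^ u1 ≤ q ∨ 1 ≤ h q) := by
    intro q β hβ hq
    unfold b1 at hq
    split_ifs at hq with hc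
    · rcases le_max_iff.mp hq with h1 | h1
      · linarith
      · unfold Gx at h1
        exact ⟨h1, hc⟩
    · linarith
  -- empty case
  have caseEmpty : ∀ (β : ℝ) (y : ℕ), N * B < β →
      (blk (fun q => β ≤ b1 h x0 N0 ε u1 x q) y : ℝ) = 0 := by
    intro β y hβ
    have := blk_eq_zero (fun q => β ≤ b1 h x0 N0 ε u1 x q) y (by
      intro q hq hq2
      have := hb1le q hq
      linarith)
    rw [this]; norm_num
  -- rare case
  have caseRare : ∀ (β : ℝ) (y : ℕ), (x : ℝ) ^ uB ≤ y → 0 < β →
      (∀ q : ℕ, q.Prime → q ≤ y → β ≤ b1 h x0 N0 ε u1 x q → 1 ≤ h q) →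
      (blk (fun q => β ≤ b1 h x0 N0 ε u1 x q) y : ℝ) ≤ ε0 * (y / Real.log y) := by
    intro β y hy hβ hh
    refine le_trans (blk_le_blk _ (fun q => 1 ≤ h q) y hh) ?_
    exact hPH.rare y (le_trans hwin hy)
  -- window case
  have caseWin : ∀ (β : ℝ) (y : ℕ), (x : ℝ) ^ uB ≤ y → y ≤ x0 → 0 < β →
      (blk (fun q => β ≤ b1 h x0 N0 ε u1 x q) y : ℝ) ≤
        C0 * Real.exp (-((3 * N0) ^ a)) * (y / Real.log y) := by
    intro β y hy hyx0 hβ
    refine le_trans (blk_le_blk _ (fun q => 0 < h q) y ?_) ?_
    · intro q hq _ hq2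
      obtain ⟨h1, _⟩ := hb1Gx q β hβ hq2
      by_contra hcon
      push Not at hcon
      have h2 : N * (h q - bb ε t) ≤ 0 := mul_nonpos_of_nonneg_of_nonpos hNpos.le (by linarith only [hbb, hcon])
      linarith
    · exact hPH.win y (le_trans hwin hy) hyx0
  -- large β case
  have caseLarge : ∀ (β : ℝ) (y : ℕ), (x : ℝ) ^ uB ≤ y → N < β →
      (blk (fun q => β ≤ b1 h x0 N0 ε u1 x q) y : ℝ) ≤ ε0 * (y / Real.log y) := by
    intro β y hy hβ
    apply caseRare β y hy (by linarith)
    intro q hq _ hq2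
    obtain ⟨h1, _⟩ := hb1Gx q β (by linarith) hq2
    by_contra hcon
    push Not at hcon
    have h2 : N * (h q - bb ε t) ≤ N * 1 := mul_le_mul_of_nonneg_left (by linarith) hNpos.le
    linarith
  -- main case via Conv
  have caseConv : ∀ (β : ℝ) (y : ℕ), (x : ℝ) ^ uB ≤ y → y < x → x0 ≤ y → 0 < β →
      (blk (fun q => β ≤ b1 h x0 N0 ε u1 x q) y : ℝ) ≤
        C0 * Real.exp (-(((1 - ε * Real.log (Real.log x / Real.log y) / (1 + ε * t)) ^ 2 *
          (β + ρ * Real.log (Real.log x / Real.log y))) ^ a)) * (y / Real.log y) := by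
    intro β y hy hyx hx0y hβ
    obtain ⟨hly, h5, h2, h2', h6⟩ := key y hy hyx
    have hc := hConv h x0 x y a N0 ε C0 β hx0 hx0y hyx hN0pos hεpos hC0pos
      (hIH y hx0y hyx) hβ
    have hr : (1 + ε * tt x0 y) / (1 + ε * tt x0 x) =
        1 - ε * Real.log (Real.log x / Real.log y) / (1 + ε * t) := by
      rw [h6, ← ht]
      field_simp
      ring
    rw [hρN, hr] at hc
    refine le_trans (blk_le_blk _ _ y ?_) hc
    intro q _ _ hq2
    exact (hb1Gx q β hβ hq2).1
  have ιpos : (0 : ℝ) < 1 - ι := by linarith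
  constructor
  · intro q
    unfold b1
    split_ifs
    · exact le_max_left _ _
    · exact le_rfl
  · intro y β hy hyx hβ
    obtain ⟨hly, h5, h2, h2', h6⟩ := key y hy hyx
    have hYnn : (0 : ℝ) ≤ (y : ℝ) / Real.log y := by positivity
    have hsum0 : 0 ≤ β + ρ * Real.log (Real.log x / Real.log y) := by positivity
    have hbase0 : 0 ≤ (1 - ι) * (β + ρ * Real.log (Real.log x / Real.log y)) :=
      mul_nonneg ιpos.le hsum0
    have hbase1 : (1 - ι) * (β + ρ * Real.log (Real.log x / Real.log y)) ≤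
        β + ρ * Real.log (Real.log x / Real.log y) := by nlinarith only [hι, hsum0]
    by_cases hβB : N * B < β
    · rw [caseEmpty β y hβB]
      positivity
    push Not at hβB
    have rareOK : ε0 ≤
        C0 * Real.exp (-(((1 - ι) * (β + ρ * Real.log (Real.log x / Real.log y))) ^ a)) := by
      rw [hε0def]
      apply monoExp _ _ hbase0
      refine le_trans hbase1 ?_
      have h7 : K1 * Real.log (N * B) ≤ K1 * Real.log (NN N0 ε T * B) :=
        mul_le_mul_of_nonneg_left hlogNB hK1pos.le
      have h8 : ρ * Real.log (Real.log x / Real.log y) ≤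
          ρ * (K1 * Real.log (NN N0 ε T * B)) :=
        mul_le_mul_of_nonneg_left (by linarith only [h2, h7]) (by linarith only [hρ, hε1, hεpos])
      linarith only [hNBT, hβB, h8]
    by_cases hyu : (x : ℝ) ^ u1 ≤ y
    · have hlag := h2' hyu
      by_cases hyx0 : x0 ≤ y
      · refine le_trans (caseConv β y hy hyx hyx0 hβ) ?_
        apply mul_le_mul_of_nonneg_right _ hYnn
        apply monoExp _ _ hbase0
        apply mul_le_mul_of_nonneg_right _ hsum0
        have hu : ε * Real.log (Real.log x / Real.log y) / (1 + ε * t) ≤ ι / 2 := by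
          rw [div_le_iff₀ hPpos]
          calc ε * Real.log (Real.log x / Real.log y) ≤ ε * (K1 * Real.log N) :=
                mul_le_mul_of_nonneg_left hlag hεpos.le
            _ ≤ ι / 2 * (1 + ε * t) := hG.lag1 t ht0
        have hu0 : 0 ≤ ε * Real.log (Real.log x / Real.log y) / (1 + ε * t) := by positivity
        nlinarith only [hu, hε1, hεpos, hι, hu0, hι']
      · push Not at hyx0
        have htlag : t ≤ Real.log (Real.log x / Real.log y) := by
          rw [ht]; unfold tt
          apply Real.log_le_log (by positivity)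
          apply div_le_div_of_nonneg_left hlx.le hly
          have hypos : (0 : ℝ) < y := by
            have : (1 : ℝ) < (x : ℝ) ^ uB := Real.one_lt_rpow (by linarith only [hε1, hεpos, hx0r, hx0xr]) huBpos
            linarith only [hε1, hεpos, hy, this]
          exact Real.log_le_log hypos (by exact_mod_cast hyx0.le)
        by_cases hβN : β ≤ N
        · refine le_trans (caseWin β y hy hyx0.le hβ) ?_
          apply mul_le_mul_of_nonneg_right _ hYnn
          apply monoExp _ _ hbase0
          have hnear := hG.near t ht0 (le_trans htlag hlag)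
          have h8 : ρ * Real.log (Real.log x / Real.log y) ≤ ρ * (K1 * Real.log N) :=
            mul_le_mul_of_nonneg_left hlag (by linarith only [hρ, hε1, hεpos])
          rw [← hN] at hnear
          linarith only [hbase1, hβN, hnear, h8]
        · push Not at hβN
          refine le_trans (caseLarge β y hy hβN) ?_
          exact mul_le_mul_of_nonneg_right rareOK hYnn
    · push Not at hyu
      refine le_trans (caseRare β y hy hβ ?_) (mul_le_mul_of_nonneg_right rareOK hYnn)
      intro q _ hqy hq2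
      obtain ⟨_, h1 | h1⟩ := hb1Gx q β hβ hq2
      · exfalso
        have : (q : ℝ) ≤ y := by exact_mod_cast hqy
        linarith only [hyu, h1, this]
      · exact h1
  · intro y β hy hyx hβ
    have hyu : (x : ℝ) ^ u1 ≤ y := by
      refine le_trans ?_ hy
      apply Real.rpow_le_rpow_of_exponent_le (by linarith only [hε1, hεpos, hx0r, hx0xr])
      linarith only [hε1, hεpos, hu1small]
    have hy' : (x : ℝ) ^ uB ≤ y := by
      refine le_trans ?_ hyu
      exact Real.rpow_le_rpow_of_exponent_le (by linarith only [hε1, hεpos, hx0r, hx0xr]) huBu1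
    obtain ⟨hly, h5, h2, h2', h6⟩ := key y hy' hyx
    have hlag := h2' hyu
    have hYnn : (0 : ℝ) ≤ (y : ℝ) / Real.log y := by positivity
    have hypos : (0 : ℝ) < y := by
      have : (1 : ℝ) < (x : ℝ) ^ uB := Real.one_lt_rpow (by linarith only [hε1, hεpos, hx0r, hx0xr]) huBpos
      linarith only [hε1, hεpos, hy', this]
    have hlyx : Real.log y ≤ Real.log x :=
      Real.log_le_log hypos (by exact_mod_cast hyx.le)
    have hrat1 : (Real.log y / Real.log x) ^ ((1 : ℝ) / 25) ≤ 1 :=
      Real.rpow_le_one (by positivity) (by rw [div_le_one hlx]; exact hlyx) (by norm_num)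
    have hrat0 : 0 ≤ (Real.log y / Real.log x) ^ ((1 : ℝ) / 25) := by positivity
    have hbase0 : 0 ≤ β * (Real.log y / Real.log x) ^ ((1 : ℝ) / 25) := by positivity
    have hbase1 : β * (Real.log y / Real.log x) ^ ((1 : ℝ) / 25) ≤ β := by nlinarith only [hβ, hrat1]
    by_cases hβB : N * B < β
    · rw [caseEmpty β y hβB]
      positivity
    push Not at hβB
    have rareOK : ε0 ≤
        C0 * Real.exp (-((β * (Real.log y / Real.log x) ^ ((1 : ℝ) / 25)) ^ a)) := by
      rw [hε0def]
      apply monoExp _ _ hbase0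
      linarith only [hstuff, hNBT, hbase1, hβB]
    by_cases hyx0 : x0 ≤ y
    · refine le_trans (caseConv β y hy' hyx hyx0 hβ) ?_
      apply mul_le_mul_of_nonneg_right _ hYnn
      apply monoExp _ _ hbase0
      set lag : ℝ := Real.log (Real.log x / Real.log y) with hlagdef
      have hlag3 : lag ≤ 3 / 2 := by
        have h1 : (2 / 5 : ℝ) * Real.log x ≤ Real.log y := by
          rw [← Real.log_rpow hxpos]
          exact Real.log_le_log (by positivity) hy
        have h3 : Real.log x / Real.log y ≤ 5 / 2 := by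
          rw [div_le_div_iff₀ hly (by norm_num)]; linarith only [h1]
        have hpos : 0 < Real.log x / Real.log y := by positivity
        have h4 := Real.log_le_sub_one_of_pos hpos
        rw [hlagdef]
        linarith only [h3, h4]
      have hrexp : (Real.log y / Real.log x) ^ ((1 : ℝ) / 25) = Real.exp (-(lag / 25)) := by
        rw [Real.rpow_def_of_pos (by positivity)]
        congr 1
        rw [hlagdef, Real.log_div hly.ne' hlx.ne', Real.log_div hlx.ne' hly.ne']
        ring
      rw [hrexp]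
      have hu0 : 0 ≤ ε * lag / (1 + ε * t) := by positivity
      have hu1' : ε * lag / (1 + ε * t) ≤ lag / 100 := by
        rw [div_le_iff₀ hPpos]
        have h9 : ε * lag ≤ (1 / 100) * lag := mul_le_mul_of_nonneg_right hε1 h5
        have h10 : lag / 100 * 1 ≤ lag / 100 * (1 + ε * t) :=
          mul_le_mul_of_nonneg_left hP1 (by positivity)
        linarith only [h9, h10]
      have hu2 : ε * lag / (1 + ε * t) ≤ 1 / 2 := by linarith only [hε1, hεpos, hlag3, hu1']
      have hexp := exp_le_one_sub' hu0 hu2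
      have hexp2 : Real.exp (-(lag / 50)) ≤ 1 - ε * lag / (1 + ε * t) := by
        refine le_trans ?_ hexp
        apply Real.exp_le_exp.mpr
        linarith only [hu1']
      have hsq : Real.exp (-(lag / 25)) ≤ (1 - ε * lag / (1 + ε * t)) ^ 2 := by
        have : Real.exp (-(lag / 25)) = Real.exp (-(lag / 50)) ^ 2 := by
          rw [← Real.exp_nat_mul]; congr 1; push_cast; ring
        rw [this]
        exact pow_le_pow_left₀ (Real.exp_pos _).le hexp2 2
      calc β * Real.exp (-(lag / 25)) ≤ β * (1 - ε * lag / (1 + ε * t)) ^ 2 :=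
            mul_le_mul_of_nonneg_left hsq hβ.le
        _ ≤ (1 - ε * lag / (1 + ε * t)) ^ 2 * (β + ρ * lag) := by
            have hρl : 0 ≤ ρ * lag := by positivity
            rw [mul_comm β]
            apply mul_le_mul_of_nonneg_left _ (sq_nonneg _)
            linarith only [hρl]
    · push Not at hyx0
      have htlag : t ≤ Real.log (Real.log x / Real.log y) := by
        rw [ht]; unfold tt
        apply Real.log_le_log (by positivity)
        apply div_le_div_of_nonneg_left hlx.le hly
        exact Real.log_le_log hypos (by exact_mod_cast hyx0.le)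
      by_cases hβN : β ≤ N
      · refine le_trans (caseWin β y hy' hyx0.le hβ) ?_
        apply mul_le_mul_of_nonneg_right _ hYnn
        apply monoExp _ _ hbase0
        have hnear := hG.near t ht0 (le_trans htlag hlag)
        have h8 : 0 ≤ ρ * (K1 * Real.log N) := by positivity
        rw [← hN] at hnear
        linarith only [hbase1, hβN, hnear, h8]
      · push Not at hβN
        refine le_trans (caseLarge β y hy' hβN) ?_
        exact mul_le_mul_of_nonneg_right rareOK hYnn

end Pool.Agent.Helper42.TOT
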